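import Mathlib
import Pool.Agent.H84.AH.V9
import Pool.Agent.H68.AH.Fin

/-!
# MP_103a5c_nt, AlternativeDichotomy

Assume RH.  (1) For every `b > 1/2` there is `c > 0` with `N(T; 0, b) ≥ (1 + c) (T/2π) log T` for all large `T`.
(2) For every `ε > 0` there are `c > 0` and `b₀ < 1/2` such that for all large `T` EITHER `N(T; 0, b₀) ≥ (1 + c) (T/2π) log T`
OR the pairs of zeros in all windows with endpoints away from `(1/2)ℤ` are distributed as the Alternative Hypothesis predicts.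
-/

open Filter Topology
open scoped Real

namespace Pool.Agent.Results.MP_103a5c_nt.AlternativeDichotomy

open Pool.Agent

/-- the mass of the Alternative Hypothesis at `k/2`: `1` for `k = 0`, `(1/2)(1 - (sin(πk/2)/(πk/2))²)` for `k ≠ 0` -/
noncomputable def mass (k : ℤ) : ℝ := if k = 0 then 1 else 1 / 2 * (1 - (Real.sin (π * k / 2) / (π * k / 2)) ^ 2)

theorem result (RH : RiemannHypothesis) :
    (∀ b : ℝ, 1 / 2 < b → ∃ c : ℝ, 0 < c ∧ ∀ᶠ T in atTop, (1 + c) * PC.norm T ≤ PC.pairCount T 0 b) ∧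
    ∀ ε : ℝ, 0 < ε → ∃ c b₀ : ℝ, 0 < c ∧ 0 < b₀ ∧ b₀ < 1 / 2 ∧ ∀ᶠ T in atTop,
      (1 + c) * PC.norm T ≤ PC.pairCount T 0 b₀ ∨
        ∀ a b : ℝ, |a| ≤ 1 / ε → |b| ≤ 1 / ε → (∀ k : ℤ, ε ≤ |a - k / 2|) → (∀ k : ℤ, ε ≤ |b - k / 2|) →
          |PC.pairCount T a b - (∑ k ∈ Finset.Icc ⌈2 * a⌉ ⌊2 * b⌋, mass k) * PC.norm T| ≤ ε * PC.norm T := by
  refine ⟨fun b hb => H84.AH.half_of_dichotomy RH (fun ε hε => H68.AH.dichotomy_final RH hε) hb, fun ε hε => ?_⟩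
  obtain ⟨c, b₀, hc, h0, h1, hD⟩ := H68.AH.dichotomy_final RH hε
  refine ⟨c, b₀, hc, h0, h1, ?_⟩
  filter_upwards [hD] with T hT
  rcases hT with hT | hT
  · exact Or.inl hT
  · right
    intro a b ha hb ha' hb'
    have h := hT a b ha hb ha' hb'
    rw [H84.AH.predAH_eq] at h
    exact h

end Pool.Agent.Results.MP_103a5c_nt.AlternativeDichotomy
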