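import Mathlib
import Pool.Agent.H69.LB.BrgL
import Pool.Agent.H69.LB.Fin
import Pool.Agent.H69.BG.X.Fin2

/-!
# MP_103a5c_nt, FormFactorLower

Assume RH. A pointwise lower bound for Montgomery's function `F(α, T)` on the whole range `|α| ≥ 1`, which is larger
than `3/2 - |α|` near `|α| = 1`. (helper69 and helper20; the two parts were proved as FormFactorBeyondOne and
FormFactorGain.)
-/

open Filter Topology
open scoped Real
open Pool.Agent Pool.Agent.H6

namespace Pool.Agent.Results.MP_103a5c_nt.FormFactorLower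

/-- Montgomery's function `F(α) = F(α, T)`: `((T / 2π) log T)⁻¹` times the sum over the ordered pairs
of nontrivial zeros with `0 < γ, γ' ≤ T`, counted with multiplicity, of
`cos(α (γ - γ') log T) w(γ - γ')` with `w(u) = 4 / (4 + u²)`. -/
noncomputable def formFactor (T α : ℝ) : ℝ :=
  (PC.norm T)⁻¹ * ∑ᶠ p ∈ {p : ℂ × ℂ | p.1 ∈ PC.zerosUpTo T ∧ p.2 ∈ PC.zerosUpTo T},
    (analyticOrderNatAt riemannZeta p.1 : ℝ) * (analyticOrderNatAt riemannZeta p.2 : ℝ) *
      (Real.cos (α * Real.log T * (p.1.im - p.2.im)) * (4 / (4 + (p.1.im - p.2.im) ^ 2)))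

lemma formFactor_eq (hRH : RiemannHypothesis) (T α : ℝ) :
    formFactor T α = H69LB.FFz gZ wZ FZ T α := by
  have e : (T * Real.log T)⁻¹ * (2 * Real.pi) = (PC.norm T)⁻¹ := by
    unfold PC.norm
    rw [mul_inv, mul_inv, inv_div]
    ring
  unfold formFactor H69LB.FFz
  rw [H69LB.finsum_zeros hRH T (fun x => Real.cos (α * Real.log T * x) * (4 / (4 + x ^ 2))), e]

/-- **A pointwise lower bound for Montgomery's function beyond `|α| = 1`, on the Riemann hypothesis alone.** If RH
holds, there is a constant `c > 0` such that for every `ε > 0` and all large `T`, for all real `α` with `|α| ≥ 1`,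
`F(α, T) ≥ 3/2 - |α| + c max(0, 1 - 10⁵(|α| - 1)) - ε`. -/
theorem result (hRH : RiemannHypothesis) :
    ∃ c : ℝ, 0 < c ∧ ∀ ε > 0, ∀ᶠ T in atTop, ∀ α : ℝ, 1 ≤ |α| →
      3 / 2 - |α| + c * max 0 (1 - 100000 * (|α| - 1)) - ε ≤ formFactor T α := by
  obtain ⟨c, hc, h⟩ := H69BG.main2 (H69LB.zer hRH)
  refine ⟨c, hc, fun ε hε => ?_⟩
  filter_upwards [h, H69LB.main (H69LB.zer hRH) ε hε] with T h1 h2 α hα
  rw [formFactor_eq hRH]
  have h3 : H69BG.uu = 1 / 100000 := rfl
  by_cases hα2 : |α| ≤ 1 + 1 / 100000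
  · have h4 := h1 α hα (by rw [h3]; exact hα2)
    have h5 : max 0 (1 - 100000 * (|α| - 1)) ≤ 1 := max_le (by norm_num) (by linarith)
    have h6 : c * max 0 (1 - 100000 * (|α| - 1)) ≤ c * 1 := mul_le_mul_of_nonneg_left h5 hc.le
    linarith
  · have h4 := h2 α hα
    have h5 : max 0 (1 - 100000 * (|α| - 1)) = 0 := max_eq_left (by push Not at hα2; linarith)
    rw [h5]
    linarith

end Pool.Agent.Results.MP_103a5c_nt.FormFactorLower
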