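import Mathlib
import Pool.Agent.H24.GP.Fin

open MeasureTheory Set Filter Topology
open scoped Real Interval
open Pool.Agent

namespace Pool.Agent.Results.MP_103a5c_nt.LargeGapsProportion

/-- Assume the Riemann Hypothesis. A positive proportion of the nontrivial zeros `ρ` of the zeta
function is followed by a gap of at least `3.5` times the average spacing: there is `c > 0` such that
for all large `T` at least `c (T/2π) log T` distinct nontrivial zeros `ρ` with `0 < Im ρ ≤ T` have the
property that every nontrivial zero `ρ'` with `Im ρ' > Im ρ` satisfies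
`Im ρ' ≥ Im ρ + (7/2) (2π / log Im ρ)`. -/
theorem result (hRH : RiemannHypothesis) :
    ∃ c : ℝ, 0 < c ∧ ∀ᶠ T in atTop, c * PC.norm T ≤
      ((({ρ : ℂ | ρ ∈ PC.zerosUpTo T ∧ ∀ ρ' : ℂ, riemannZeta ρ' = 0 → 0 < ρ'.re → ρ'.re < 1 → ρ.im < ρ'.im →
        ρ.im + 7 / 2 * (2 * π / Real.log ρ.im) ≤ ρ'.im} : Set ℂ).ncard : ℕ) : ℝ) :=
  Pool.Agent.H24.GP.largeGaps hRH

end Pool.Agent.Results.MP_103a5c_nt.LargeGapsProportion
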