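import Mathlib
import Pool.Agent.H82.SZ2.Main2

/-!
# MP_103a5c_nt, SimpleZeros

Assume RH.  There is an absolute constant `β > 0` such that for all large `T`: `N(T; -β, β) ≤ 1.2928 (T/2π) log T`; at
least `0.7072 (T/2π) log T` of the nontrivial zeros with `0 < γ ≤ T` are simple and have no other zero within
`2πβ / log T`; at least `0.8536 (T/2π) log T` distinct zeros exist there; and the integral of Montgomery's function
`F(α, T)` over every interval of length `l` is at most `1.2928 (l + 1/β)`.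
-/

open Filter Topology
open scoped Interval

namespace Pool.Agent.Results.MP_103a5c_nt.SimpleZeros

open Pool.Agent

/-- Montgomery's function `F(α) = F(α, T)`: `((T / 2π) log T)⁻¹` times the sum over the ordered pairs
of nontrivial zeros with `0 < γ, γ' ≤ T`, counted with multiplicity, of
`cos(α (γ - γ') log T) w(γ - γ')` with `w(u) = 4 / (4 + u²)`. -/
noncomputable def formFactor (T α : ℝ) : ℝ :=
  (PC.norm T)⁻¹ * ∑ᶠ p ∈ {p : ℂ × ℂ | p.1 ∈ PC.zerosUpTo T ∧ p.2 ∈ PC.zerosUpTo T},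
    (analyticOrderNatAt riemannZeta p.1 : ℝ) * (analyticOrderNatAt riemannZeta p.2 : ℝ) *
      (Real.cos (α * Real.log T * (p.1.im - p.2.im)) * (4 / (4 + (p.1.im - p.2.im) ^ 2)))

theorem result (RH : RiemannHypothesis) : ∃ β : ℝ, 0 < β ∧ ∀ᶠ T in atTop,
    PC.pairCount T (-β) β ≤ 1.2928 * PC.norm T ∧
    0.7072 * PC.norm T ≤ (({ρ : ℂ | ρ ∈ PC.zerosUpTo T ∧ deriv riemannZeta ρ ≠ 0 ∧
      ∀ ρ' : ℂ, riemannZeta ρ' = 0 → 0 < ρ'.re → ρ'.re < 1 → ρ' ≠ ρ →
        2 * Real.pi * β / Real.log T < |ρ'.im - ρ.im|}.ncard : ℕ) : ℝ) ∧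
    0.8536 * PC.norm T ≤ (((PC.zerosUpTo T).ncard : ℕ) : ℝ) ∧
    ∀ b l : ℝ, 0 < l → ∫ α in b..b + l, formFactor T α ≤ 1.2928 * (l + 1 / β) := by
  obtain ⟨β, hβ, h⟩ := H82SZ.v2 RH
  refine ⟨β, hβ, ?_⟩
  filter_upwards [h, eventually_gt_atTop (1 : ℝ)] with T hT hT1
  refine ⟨hT.1, hT.2.1, hT.2.2, fun b l hl => ?_⟩
  have hn : 0 < PC.norm T := by
    have e : PC.norm T = T / (2 * Real.pi) * Real.log T := rfl
    rw [e]
    have := Real.log_pos hT1
    have := Real.pi_pos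
    positivity
  have h1 := H11.SZ2.avg_le RH (b := b) hT1 hβ hl
  have h2 : PC.pairCount T (-β) β / PC.norm T ≤ 1.2928 := by
    rw [div_le_iff₀ hn]
    exact hT.1
  have h3 : 0 < l + 1 / β := by positivity
  have h4 : ∫ α in b..b + l, formFactor T α = ∫ α in b..b + l, H11.SZ2.formFactor T α := rfl
  rw [h4]
  calc ∫ α in b..b + l, H11.SZ2.formFactor T α ≤ (l + 1 / β) * (PC.pairCount T (-β) β / PC.norm T) := h1
    _ ≤ (l + 1 / β) * 1.2928 := mul_le_mul_of_nonneg_left h2 h3.le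
    _ = 1.2928 * (l + 1 / β) := by ring

end Pool.Agent.Results.MP_103a5c_nt.SimpleZeros
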